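import Mathlib

/-!
# Double-critical graphs: private transversals and multiple colourings

Base file for `Pool.Agent.Results.MP_982fcc_co.CommonNeighbours` and `ManyVertices`.  The definitions and the lemmas
`colorable_of_edge`, `fold_of_type`, `fold_of_matching`, `weight_le` are those of the hand-in
`FractionalGap` on the same problem (helper46).
-/

set_option autoImplicit false

open Finset

namespace Pool.Agent.DC26

variable {V : Type}

/-- `G` is double-critical with chromatic number `k`. -/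
def DoubleCritical (G : SimpleGraph V) (k : ℕ) : Prop :=
  G.Connected ∧ G.chromaticNumber = k ∧
    ∀ u v : V, G.Adj u v →
      (G.induce ({u, v}ᶜ : Set V)).chromaticNumber + 2 = G.chromaticNumber

/-- `G` has a `b`-fold colouring with `N` colours: every vertex gets a set of exactly `b`
colours and adjacent vertices get disjoint sets. -/
def FoldColorable (G : SimpleGraph V) (b N : ℕ) : Prop :=
  ∃ S : V → Finset (Fin N), (∀ v, (S v).card = b) ∧ ∀ u v, G.Adj u v → Disjoint (S u) (S v)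

theorem colorable_of_edge {G : SimpleGraph V} {k : ℕ} (h : DoubleCritical G k) {u v : V}
    (huv : G.Adj u v) : 2 ≤ k ∧ (G.induce ({u, v}ᶜ : Set V)).Colorable (k - 2) := by
  have h1 := h.2.2 u v huv
  rw [h.2.1] at h1
  have hfin : (G.induce ({u, v}ᶜ : Set V)).chromaticNumber ≠ ⊤ := by
    intro ht
    rw [ht] at h1
    exact absurd h1 (by simp)
  obtain ⟨n, hn⟩ := ENat.ne_top_iff_exists.1 hfin
  rw [← hn] at h1
  have h2 : n + 2 = k := by exact_mod_cast h1
  refine ⟨by omega, ?_⟩
  rw [← SimpleGraph.chromaticNumber_le_iff_colorable, ← hn]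
  have : n = k - 2 := by omega
  rw [this]

/-- Transport of a multiple colouring to `Fin N`. -/
theorem fold_of_type {G : SimpleGraph V} {b N : ℕ} {α : Type} [Fintype α] [DecidableEq α]
    (hα : Fintype.card α = N) (S : V → Finset α) (h1 : ∀ v, (S v).card = b)
    (h2 : ∀ u v, G.Adj u v → Disjoint (S u) (S v)) : FoldColorable G b N := by
  let e : α ≃ Fin N := Fintype.equivFinOfCardEq hα
  refine ⟨fun v => (S v).map e.toEmbedding, fun v => by rw [card_map, h1], fun u v huv => ?_⟩
  rw [disjoint_map]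
  exact h2 u v huv

/-- Disjoint edges give a multiple colouring. -/
theorem fold_of_matching {G : SimpleGraph V} {k : ℕ} (h : DoubleCritical G k) (b c : ℕ)
    (x y : Fin b → V) (hxy : ∀ i, G.Adj (x i) (y i))
    (hdis : ∀ i j, i ≠ j → x i ≠ x j ∧ x i ≠ y j ∧ y i ≠ x j ∧ y i ≠ y j)
    (hc : (G.induce {v | ∃ i, v = x i ∨ v = y i}).Colorable c) :
    FoldColorable G b (b * (k - 2) + c) := by
  classical
  obtain ⟨C0⟩ := hc
  have hC : ∀ i, Nonempty ((G.induce ({x i, y i}ᶜ : Set V)).Coloring (Fin (k - 2))) :=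
    fun i => (colorable_of_edge h (hxy i)).2
  let C := fun i => (hC i).some
  have hmem : ∀ v i, v ∉ ({x i, y i}ᶜ : Set V) → v = x i ∨ v = y i := by
    intro v i hv
    rw [Set.notMem_compl_iff] at hv
    exact hv
  let g : V → Fin b → (Fin b × Fin (k - 2)) ⊕ Fin c := fun v i =>
    if hv : v ∈ ({x i, y i}ᶜ : Set V) then Sum.inl (i, C i ⟨v, hv⟩)
    else Sum.inr (C0 ⟨v, ⟨i, hmem v i hv⟩⟩)
  have gpos : ∀ v i (hv : v ∈ ({x i, y i}ᶜ : Set V)), g v i = Sum.inl (i, C i ⟨v, hv⟩) :=
    fun v i hv => dif_pos hv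
  have gneg : ∀ v i (hv : v ∉ ({x i, y i}ᶜ : Set V)),
      g v i = Sum.inr (C0 ⟨v, ⟨i, hmem v i hv⟩⟩) := fun v i hv => dif_neg hv
  have huniq : ∀ v i j, v ∉ ({x i, y i}ᶜ : Set V) → v ∉ ({x j, y j}ᶜ : Set V) → i = j := by
    intro v i j hi hj
    by_contra hij
    obtain ⟨h1, h2, h3, h4⟩ := hdis i j hij
    rcases hmem v i hi with rfl | rfl <;> rcases hmem _ j hj with hj | hj
    · exact h1 hj
    · exact h2 hj
    · exact h3 hj
    · exact h4 hj
  apply fold_of_type (α := (Fin b × Fin (k - 2)) ⊕ Fin c) (by simp) (fun v => univ.image (g v))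
  · intro v
    rw [card_image_of_injective, card_univ, Fintype.card_fin]
    intro i j hij
    by_cases hi : v ∈ ({x i, y i}ᶜ : Set V) <;> by_cases hj : v ∈ ({x j, y j}ᶜ : Set V)
    · rw [gpos v i hi, gpos v j hj] at hij
      have h3 := Sum.inl.inj hij
      rw [Prod.mk.injEq] at h3
      exact h3.1
    · rw [gpos v i hi, gneg v j hj] at hij
      exact absurd hij (by simp)
    · rw [gneg v i hi, gpos v j hj] at hij
      exact absurd hij (by simp)
    · exact huniq v i j hi hj
  · intro u v huv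
    rw [disjoint_left]
    intro s hsu hsv
    obtain ⟨i, -, hi⟩ := mem_image.1 hsu
    obtain ⟨j, -, hj⟩ := mem_image.1 hsv
    rw [← hi] at hj
    by_cases hui : u ∈ ({x i, y i}ᶜ : Set V) <;> by_cases hvj : v ∈ ({x j, y j}ᶜ : Set V)
    · rw [gpos u i hui, gpos v j hvj] at hj
      have h3 := Sum.inl.inj hj
      rw [Prod.mk.injEq] at h3
      obtain ⟨rfl, h4⟩ := h3
      exact (C j).valid (v := ⟨u, hui⟩) (w := ⟨v, hvj⟩) huv h4.symm
    · rw [gpos u i hui, gneg v j hvj] at hj
      exact absurd hj (by simp)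
    · rw [gneg u i hui, gpos v j hvj] at hj
      exact absurd hj (by simp)
    · rw [gneg u i hui, gneg v j hvj] at hj
      exact C0.valid (v := ⟨u, _⟩) (w := ⟨v, _⟩) huv (Sum.inr.inj hj).symm

/-- A multiple colouring bounds the total weight. -/
theorem weight_le [Fintype V] {G : SimpleGraph V} {b N : ℕ} (h : FoldColorable G b N) (w : V → ℝ)
    (hw : ∀ I : Finset V, (∀ u ∈ I, ∀ v ∈ I, ¬ G.Adj u v) → ∑ v ∈ I, w v ≤ 1) :
    (b : ℝ) * ∑ v, w v ≤ N := by
  classical
  obtain ⟨S, hS1, hS2⟩ := h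
  calc (b : ℝ) * ∑ v, w v = ∑ v, ∑ _a ∈ S v, w v := by
        rw [mul_sum]
        refine sum_congr rfl fun v _ => ?_
        rw [sum_const, hS1, nsmul_eq_mul]
    _ = ∑ v, ∑ a : Fin N, if a ∈ S v then w v else 0 := by
        refine sum_congr rfl fun v _ => ?_
        rw [← sum_filter]
        congr 1
        ext a
        simp
    _ = ∑ a : Fin N, ∑ v, if a ∈ S v then w v else 0 := sum_comm
    _ ≤ ∑ _a : Fin N, (1 : ℝ) := by
        refine sum_le_sum fun a _ => ?_
        rw [← sum_filter]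
        apply hw
        intro u hu v hv huv
        have hu' := (mem_filter.1 hu).2
        have hv' := (mem_filter.1 hv).2
        exact disjoint_left.1 (hS2 u v huv) hu' hv'
    _ = N := by simp

/-- Every colour class of a `(k - 2)`-colouring of `G - u - v` contains a common neighbour of
the adjacent vertices `u`, `v`. -/
theorem exists_common {G : SimpleGraph V} {k : ℕ} (h : DoubleCritical G k) {u v : V}
    (huv : G.Adj u v) (C : (G.induce ({u, v}ᶜ : Set V)).Coloring (Fin (k - 2)))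
    (i : Fin (k - 2)) :
    ∃ z, ∃ hz : z ∈ ({u, v}ᶜ : Set V), C ⟨z, hz⟩ = i ∧ G.Adj u z ∧ G.Adj v z := by
  classical
  by_contra hcon
  push Not at hcon
  have hk2 := (colorable_of_edge h huv).1
  have hmem : ∀ z, z ≠ u → z ≠ v → z ∈ ({u, v}ᶜ : Set V) := by
    intro z h1 h2 h3
    rcases h3 with h3 | h3
    · exact h1 h3
    · exact h2 h3
  let f : V → Fin (k - 2) ⊕ Unit := fun z =>
    if h1 : z = u then Sum.inl i
    else if h2 : z = v then Sum.inr ()
    else if C ⟨z, hmem z h1 h2⟩ = i ∧ G.Adj u z then Sum.inr () else Sum.inl (C ⟨z, hmem z h1 h2⟩)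
  have fu : f u = Sum.inl i := dif_pos rfl
  have fv : f v = Sum.inr () := by
    show (if h1 : v = u then Sum.inl i
      else if h2 : v = v then Sum.inr ()
      else if C ⟨v, hmem v h1 h2⟩ = i ∧ G.Adj u v then Sum.inr ()
        else Sum.inl (C ⟨v, hmem v h1 h2⟩)) = Sum.inr ()
    rw [dif_neg huv.ne', dif_pos rfl]
  have f1 : ∀ z (h1 : z ≠ u) (h2 : z ≠ v), C ⟨z, hmem z h1 h2⟩ = i ∧ G.Adj u z →
      f z = Sum.inr () := by
    intro z h1 h2 h3
    show (if h1 : z = u then Sum.inl i
      else if h2 : z = v then Sum.inr ()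
      else if C ⟨z, hmem z h1 h2⟩ = i ∧ G.Adj u z then Sum.inr ()
        else Sum.inl (C ⟨z, hmem z h1 h2⟩)) = Sum.inr ()
    rw [dif_neg h1, dif_neg h2, if_pos h3]
  have f2 : ∀ z (h1 : z ≠ u) (h2 : z ≠ v), ¬ (C ⟨z, hmem z h1 h2⟩ = i ∧ G.Adj u z) →
      f z = Sum.inl (C ⟨z, hmem z h1 h2⟩) := by
    intro z h1 h2 h3
    show (if h1 : z = u then Sum.inl i
      else if h2 : z = v then Sum.inr ()
      else if C ⟨z, hmem z h1 h2⟩ = i ∧ G.Adj u z then Sum.inr ()
        else Sum.inl (C ⟨z, hmem z h1 h2⟩)) = Sum.inl (C ⟨z, hmem z h1 h2⟩)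
    rw [dif_neg h1, dif_neg h2, if_neg h3]
  -- a neighbour of `u` other than `v`
  have gu : ∀ z, z ≠ v → G.Adj u z → f u ≠ f z := by
    intro z hzv hz
    have hzu : z ≠ u := hz.ne'
    rw [fu]
    by_cases h3 : C ⟨z, hmem z hzu hzv⟩ = i ∧ G.Adj u z
    · rw [f1 z hzu hzv h3]
      exact Sum.inl_ne_inr
    · rw [f2 z hzu hzv h3]
      intro h4
      exact h3 ⟨(Sum.inl.inj h4).symm, hz⟩
  have gv : ∀ z, z ≠ u → G.Adj v z → f v ≠ f z := by
    intro z hzu hz
    have hzv : z ≠ v := hz.ne'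
    rw [fv]
    by_cases h3 : C ⟨z, hmem z hzu hzv⟩ = i ∧ G.Adj u z
    · exact absurd hz (hcon z (hmem z hzu hzv) h3.1 h3.2)
    · rw [f2 z hzu hzv h3]
      exact Sum.inr_ne_inl
  have guv : f u ≠ f v := by
    rw [fu, fv]
    exact Sum.inl_ne_inr
  have hcol : G.Colorable (Fintype.card (Fin (k - 2) ⊕ Unit)) := by
    refine SimpleGraph.Coloring.colorable (SimpleGraph.Coloring.mk f ?_)
    intro a b hab
    by_cases hau : a = u
    · subst hau
      by_cases hbv : b = v
      · rw [hbv]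
        exact guv
      · exact gu b hbv hab
    by_cases hav : a = v
    · subst hav
      by_cases hbu : b = u
      · rw [hbu]
        exact guv.symm
      · exact gv b hbu hab
    by_cases hbu : b = u
    · subst hbu
      exact (gu a hav hab.symm).symm
    by_cases hbv : b = v
    · subst hbv
      exact (gv a hau hab.symm).symm
    by_cases ha : C ⟨a, hmem a hau hav⟩ = i ∧ G.Adj u a <;>
      by_cases hb : C ⟨b, hmem b hbu hbv⟩ = i ∧ G.Adj u b
    · exfalso
      exact C.valid (v := ⟨a, hmem a hau hav⟩) (w := ⟨b, hmem b hbu hbv⟩) hab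
        (ha.1.trans hb.1.symm)
    · rw [f1 a hau hav ha, f2 b hbu hbv hb]
      exact Sum.inr_ne_inl
    · rw [f2 a hau hav ha, f1 b hbu hbv hb]
      exact Sum.inl_ne_inr
    · rw [f2 a hau hav ha, f2 b hbu hbv hb]
      intro h4
      exact C.valid (v := ⟨a, hmem a hau hav⟩) (w := ⟨b, hmem b hbu hbv⟩) hab (Sum.inl.inj h4)
  rw [← SimpleGraph.chromaticNumber_le_iff_colorable, h.2.1] at hcol
  simp only [Fintype.card_sum, Fintype.card_fin, Fintype.card_unit] at hcol
  have h5 : k ≤ k - 2 + 1 := by exact_mod_cast hcol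
  omega

/-- Distinct edges whose common neighbours all lie in `W`: at most `(|W| choose k - 2)`. -/
theorem card_edges_le {G : SimpleGraph V} {k : ℕ} (h : DoubleCritical G k)
    {ι : Type} [Fintype ι] (x y : ι → V) (hxy : ∀ i, G.Adj (x i) (y i))
    (hne : ∀ i j, i ≠ j → s(x i, y i) ≠ s(x j, y j)) (W : Finset V)
    (hW : ∀ i z, G.Adj (x i) z → G.Adj (y i) z → z ∈ W) :
    Fintype.card ι ≤ W.card.choose (k - 2) := by
  classical
  have hC : ∀ i, Nonempty ((G.induce ({x i, y i}ᶜ : Set V)).Coloring (Fin (k - 2))) :=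
    fun i => (colorable_of_edge h (hxy i)).2
  let C := fun i => (hC i).some
  have hf : ∀ i (c : Fin (k - 2)), ∃ z, ∃ hz : z ∈ ({x i, y i}ᶜ : Set V),
      C i ⟨z, hz⟩ = c ∧ G.Adj (x i) z ∧ G.Adj (y i) z :=
    fun i c => exists_common h (hxy i) (C i) c
  choose f hf1 hf2 hf3 hf4 using hf
  let T : ι → Finset V := fun i => univ.image (f i)
  have hTcard : ∀ i, (T i).card = k - 2 := by
    intro i
    rw [card_image_of_injective, card_univ, Fintype.card_fin]
    intro c d hcd
    have h1 := hf2 i c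
    have h2 := hf2 i d
    have h3 : C i ⟨f i c, hf1 i c⟩ = C i ⟨f i d, hf1 i d⟩ := by
      congr 1
      exact Subtype.ext hcd
    rw [h1, h2] at h3
    exact h3
  have hTW : ∀ i, T i ⊆ W := by
    intro i z hz
    obtain ⟨c, -, rfl⟩ := mem_image.1 hz
    exact hW i _ (hf3 i c) (hf4 i c)
  have hinj : ∀ i j, T i = T j → i = j := by
    intro i j hij
    by_contra hne'
    have hz : ∃ z, (z = x j ∨ z = y j) ∧ z ∈ ({x i, y i}ᶜ : Set V) := by
      by_contra hc
      push Not at hc
      have h1 : x j = x i ∨ x j = y i := by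
        have := hc (x j) (Or.inl rfl)
        rw [Set.notMem_compl_iff] at this
        exact this
      have h2 : y j = x i ∨ y j = y i := by
        have := hc (y j) (Or.inr rfl)
        rw [Set.notMem_compl_iff] at this
        exact this
      have h3 : x j ≠ y j := (hxy j).ne
      apply hne i j hne'
      rcases h1 with h1 | h1 <;> rcases h2 with h2 | h2
      · exact absurd (h1.trans h2.symm) h3
      · rw [h1, h2]
      · rw [h1, h2]
        exact Sym2.eq_swap
      · exact absurd (h1.trans h2.symm) h3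
    obtain ⟨z, hz1, hz2⟩ := hz
    have ht : f i (C i ⟨z, hz2⟩) ∈ T j := by
      rw [← hij]
      exact mem_image_of_mem _ (mem_univ _)
    obtain ⟨d, -, hd⟩ := mem_image.1 ht
    have hadj : G.Adj z (f i (C i ⟨z, hz2⟩)) := by
      rw [← hd]
      rcases hz1 with rfl | rfl
      · exact hf3 j d
      · exact hf4 j d
    exact (C i).valid (v := ⟨z, hz2⟩) (w := ⟨f i (C i ⟨z, hz2⟩), hf1 i _⟩) hadj (hf2 i _).symm
  rw [← card_univ, ← card_powersetCard]
  apply card_le_card_of_injOn T
  · intro i _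
    rw [mem_coe, mem_powersetCard]
    exact ⟨hTW i, hTcard i⟩
  · intro i _ j _ hij
    exact hinj i j hij

/-- Every vertex has a neighbour when the chromatic number is at least two. -/
theorem exists_nbr {G : SimpleGraph V} {k : ℕ} (h : DoubleCritical G k) (hk : 2 ≤ k) (u : V) :
    ∃ y, G.Adj u y := by
  have hne : ∃ v, v ≠ u := by
    by_contra hc
    push Not at hc
    have hcol : G.Colorable 1 := by
      refine ⟨SimpleGraph.Coloring.mk (fun _ => 0) ?_⟩
      intro a b hab
      exact absurd ((hc a).trans (hc b).symm) hab.ne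
    rw [← SimpleGraph.chromaticNumber_le_iff_colorable, h.2.1] at hcol
    have h5 : k ≤ 1 := by exact_mod_cast hcol
    omega
  obtain ⟨v, hv⟩ := hne
  obtain ⟨p⟩ := h.1.preconnected u v
  cases p with
  | nil => exact absurd rfl hv
  | cons hadj _ => exact ⟨_, hadj⟩

/-- All degrees are at least `k - 1`. -/
theorem deg_ge [Fintype V] [DecidableEq V] {G : SimpleGraph V} [DecidableRel G.Adj] {k : ℕ}
    (h : DoubleCritical G k) (u : V) : k - 1 ≤ (univ.filter (fun z => G.Adj u z)).card := by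
  by_cases hk : 2 ≤ k
  · obtain ⟨y, hy⟩ := exists_nbr h hk u
    obtain ⟨-, ⟨C⟩⟩ := colorable_of_edge h hy
    have hf : ∀ (c : Fin (k - 2)), ∃ z, ∃ hz : z ∈ ({u, y}ᶜ : Set V),
        C ⟨z, hz⟩ = c ∧ G.Adj u z ∧ G.Adj y z := fun c => exists_common h hy C c
    choose f hf1 hf2 hf3 hf4 using hf
    have hcard : (univ.image f).card = k - 2 := by
      rw [card_image_of_injective, card_univ, Fintype.card_fin]
      intro c d hcd
      have h3 : C ⟨f c, hf1 c⟩ = C ⟨f d, hf1 d⟩ := by
        congr 1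
        exact Subtype.ext hcd
      rw [hf2 c, hf2 d] at h3
      exact h3
    have hy' : y ∉ univ.image f := by
      intro hc
      obtain ⟨c, -, hc⟩ := mem_image.1 hc
      exact hf1 c (Or.inr hc)
    have hsub : insert y (univ.image f) ⊆ univ.filter (fun z => G.Adj u z) := by
      intro z hz
      rw [mem_insert] at hz
      rw [mem_filter]
      refine ⟨mem_univ _, ?_⟩
      rcases hz with rfl | hz
      · exact hy
      · obtain ⟨c, -, rfl⟩ := mem_image.1 hz
        exact hf3 c
    have := card_le_card hsub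
    rw [card_insert_of_notMem hy', hcard] at this
    omega
  · omega

/-- Independent sets: `(k - 1) |U| ≤ (n - |U| choose k - 2)`. -/
theorem indep_bound [Fintype V] {G : SimpleGraph V} {k : ℕ} (h : DoubleCritical G k)
    (U : Finset V) (hU : ∀ u ∈ U, ∀ v ∈ U, ¬ G.Adj u v) :
    (k - 1) * U.card ≤ (Fintype.card V - U.card).choose (k - 2) := by
  classical
  let P : Finset (V × V) := univ.filter (fun p : V × V => p.1 ∈ U ∧ G.Adj p.1 p.2)
  have h1 := card_edges_le h (ι := P) (fun p => p.1.1) (fun p => p.1.2)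
    (fun p => (mem_filter.1 p.2).2.2)
    (by
      rintro ⟨⟨a, b⟩, hp⟩ ⟨⟨c, d⟩, hq⟩ hne heq
      have hp' := (mem_filter.1 hp).2
      have hq' := (mem_filter.1 hq).2
      simp only at hp' hq' heq
      rw [Sym2.eq_iff] at heq
      rcases heq with ⟨e1, e2⟩ | ⟨e1, e2⟩
      · apply hne
        subst e1 e2
        rfl
      · subst e1 e2
        exact hU _ hp'.1 _ hq'.1 hp'.2)
    (Uᶜ)
    (by
      rintro ⟨⟨a, b⟩, hp⟩ z hz1 _
      have hp' := (mem_filter.1 hp).2
      rw [mem_compl]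
      intro hzU
      exact hU _ hp'.1 _ hzU hz1)
  rw [card_compl, Fintype.card_coe] at h1
  refine le_trans ?_ h1
  have h2 : P.card = ∑ u ∈ U, (univ.filter (fun z => G.Adj u z)).card := by
    rw [← card_sigma]
    refine card_bij' (fun p _ => ⟨p.1, p.2⟩) (fun q _ => (q.1, q.2)) ?_ ?_ ?_ ?_
    · intro p hp
      have hp' := (mem_filter.1 hp).2
      rw [mem_sigma]
      exact ⟨hp'.1, mem_filter.2 ⟨mem_univ _, hp'.2⟩⟩
    · intro q hq
      rw [mem_sigma] at hq
      exact mem_filter.2 ⟨mem_univ _, hq.1, (mem_filter.1 hq.2).2⟩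
    · intro p _
      rfl
    · intro q _
      rfl
  rw [h2, mul_comm, ← smul_eq_mul, ← sum_const]
  exact sum_le_sum fun u _ => deg_ge h u

/-- Every edge `u v` is the common neighbourhood of a transversal of any `(k - 2)`-colouring of
`G - u - v`. -/
theorem exists_transversal {G : SimpleGraph V} {k : ℕ} (h : DoubleCritical G k) {u v : V}
    (huv : G.Adj u v) (C : (G.induce ({u, v}ᶜ : Set V)).Coloring (Fin (k - 2))) :
    ∃ f : Fin (k - 2) → V, (∀ c, ∃ hz : f c ∈ ({u, v}ᶜ : Set V), C ⟨f c, hz⟩ = c) ∧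
      ∀ z, (∀ c, G.Adj (f c) z) ↔ z = u ∨ z = v := by
  have hf : ∀ (c : Fin (k - 2)), ∃ z, ∃ hz : z ∈ ({u, v}ᶜ : Set V),
      C ⟨z, hz⟩ = c ∧ G.Adj u z ∧ G.Adj v z := fun c => exists_common h huv C c
  choose f hf1 hf2 hf3 hf4 using hf
  refine ⟨f, fun c => ⟨hf1 c, hf2 c⟩, fun z => ⟨fun hz => ?_, fun hz => ?_⟩⟩
  · by_contra hc
    have hz1 : z ∈ ({u, v}ᶜ : Set V) := hc
    exact C.valid (v := ⟨f (C ⟨z, hz1⟩), hf1 _⟩) (w := ⟨z, hz1⟩) (hz _) (hf2 _)
  · intro c
    rcases hz with rfl | rfl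
    · exact (hf3 c).symm
    · exact (hf4 c).symm

end Pool.Agent.DC26
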